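import Mathlib
import Pool.Agent.H52.SQ.Q7

/-!
# Primes `n² + a`: the error in the Hardy-Littlewood formula is at least of random size

Let `P_a(x; h)` be the number of `x < n ≤ x + h` for which `n² + a` is prime and `S_a(x; h)` the sum of
`1 / log (n² + a)` over these `n`. The Hardy-Littlewood formula predicts `P_a(x; h) ≈ h_a S_a(x; h)` with a
constant `h_a` that does not depend on the window. We show that for `a` in `(N, 2N]` and `n` up to
`N^(1/3 - δ)` the error in this formula is on average over `a` at least as large as for a random set.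

1. The counts of up to `N^(δ/160)` disjoint windows of the same length `h` are uncorrelated at least in the
   following sense: the mean square over `a` of any linear form `∑ c_l P_a(x_l; h)` is at least
   `κ (h / log N) ∑ c_l²`.
2. For any two disjoint windows of the same length and any choice of constants `H(a)` for the individual `a`,
   in particular for the constants `h_a` of Hardy and Littlewood, the sum of the mean square errors of the
   predictions `H(a) S_a` is at least `κ h / log N`. So at most one of the disjoint windows of length `h` has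
   a mean square error smaller than `κ h / (2 log N)`.
3. For at least `κ N / (h log N)` of the `a` one of the two errors is at least `κ √(h / log N)`.

The windows may have any length, from one integer `n` to the full range. The proof compares the primes
`n² + a` with the test function `∑_n c_n w(n² + a)`, where `w(m) = ∑_{R₁ < r ≤ R} μ(r) c_r(m) / r` is a
sum of Ramanujan sums over moduli larger than the range of `n`. The test function has small energy by the
large sieve. Its correlation with the primes `n² + a` has the diagonal main term from `w(p) = ∑ μ²(r) / r`,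
and the other terms, sums of `w(p + m² - n²)`, are bounded for each difference `m - n` by the mean value
theorem for the primes in progressions to the moduli up to `N^(1/3 - δ)` in the form of Vaughan.
-/

set_option autoImplicit false

open Finset

namespace Pool.Agent.Results.MP_391708_nt.Fluctuations

/-- `P_a(x; h)`: the number of the integers `x < n ≤ x + h` for which `n² + a` is prime. -/
def primeCount (x h a : ℕ) : ℕ := ((Ioc x (x + h)).filter fun n => (n ^ 2 + a).Prime).card

/-- `S_a(x; h)`: the sum of `1 / log (n² + a)` over the integers `x < n ≤ x + h`. -/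
noncomputable def logSum (x h a : ℕ) : ℝ := ∑ n ∈ Ioc x (x + h), 1 / Real.log ((n : ℝ) ^ 2 + a)

/-- the error of the prediction with the constant `H` -/
noncomputable def error (H : ℝ) (x h a : ℕ) : ℝ := primeCount x h a - H * logSum x h a

lemma cw_eq (x h a : ℕ) : Pool.Agent.H52.SQ.cw x h a = primeCount x h a := by
  unfold Pool.Agent.H52.SQ.cw primeCount
  rw [← sum_filter, sum_const, nsmul_eq_mul, mul_one]
  congr 2
  apply filter_congr
  intro i _
  rw [add_comm]

lemma primeCount_le (x h a : ℕ) : (primeCount x h a : ℝ) ≤ h := by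
  have h1 : primeCount x h a ≤ h := by
    unfold primeCount
    refine (card_filter_le _ _).trans ?_
    rw [Nat.card_Ioc, Nat.add_sub_cancel_left]
  exact_mod_cast h1

lemma logSum_bounds (x h a : ℕ) (X La Lb : ℝ) (hLa : La = Real.log a) (hLb : Lb = Real.log (a + X ^ 2))
    (ha : 3 ≤ a) (hX : (x : ℝ) + h ≤ X) :
    h / Lb ≤ logSum x h a ∧ logSum x h a ≤ h / La := by
  have ha0 : (3 : ℝ) ≤ a := by exact_mod_cast ha
  have hcard : ((Ioc x (x + h)).card : ℝ) = h := by rw [Nat.card_Ioc, Nat.add_sub_cancel_left]
  have hLa0 : 0 < Real.log a := Real.log_pos (by linarith)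
  have hterm : ∀ n ∈ Ioc x (x + h), 1 / Lb ≤ 1 / Real.log ((n : ℝ) ^ 2 + a) ∧
      1 / Real.log ((n : ℝ) ^ 2 + a) ≤ 1 / La := by
    intro n hn
    rw [mem_Ioc] at hn
    have h1 : (n : ℝ) ≤ X := by
      have : (n : ℝ) ≤ x + h := by exact_mod_cast hn.2
      linarith
    have h2 : (n : ℝ) ^ 2 ≤ X ^ 2 := pow_le_pow_left₀ (by positivity) h1 2
    have h3 : (0 : ℝ) ≤ (n : ℝ) ^ 2 := by positivity
    have h4 : Real.log a ≤ Real.log ((n : ℝ) ^ 2 + a) := Real.log_le_log (by linarith) (by linarith)
    have h5 : Real.log ((n : ℝ) ^ 2 + a) ≤ Real.log (a + X ^ 2) :=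
      Real.log_le_log (by linarith) (by linarith)
    rw [hLa, hLb]
    exact ⟨one_div_le_one_div_of_le (by linarith) h5, one_div_le_one_div_of_le hLa0 h4⟩
  unfold logSum
  constructor
  · have := card_nsmul_le_sum (Ioc x (x + h)) _ _ fun n hn => (hterm n hn).1
    rw [nsmul_eq_mul, hcard] at this
    calc (h : ℝ) / Lb = h * (1 / Lb) := by ring
      _ ≤ _ := this
  · have := sum_le_card_nsmul (Ioc x (x + h)) _ _ fun n hn => (hterm n hn).2
    rw [nsmul_eq_mul, hcard] at this
    calc _ ≤ (h : ℝ) * (1 / La) := this
      _ = h / La := by ring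

lemma compare (p q H s t η h : ℝ) (hs : 0 < s) (ht0 : 0 ≤ t) (hts : t ≤ 2 * s) (hη : |s - t| ≤ η * s)
    (hp0 : 0 ≤ p) (hp : p ≤ h) : |p - q| ≤ 2 * |p - H * s| + |q - H * t| + η * h := by
  have hη0 : 0 ≤ η := by
    by_contra hcon
    rw [not_le] at hcon
    have : η * s < 0 := mul_neg_of_neg_of_pos hcon hs
    linarith [abs_nonneg (s - t)]
  have h1 : s * (p - q) = t * (p - H * s) - s * (q - H * t) + (s - t) * p := by ring
  have h2 : s * |p - q| ≤ s * (2 * |p - H * s| + |q - H * t| + η * h) := by
    calc s * |p - q| = |s * (p - q)| := by rw [abs_mul, abs_of_pos hs]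
      _ = |t * (p - H * s) - s * (q - H * t) + (s - t) * p| := by rw [h1]
      _ ≤ |t * (p - H * s) - s * (q - H * t)| + |(s - t) * p| := abs_add_le _ _
      _ ≤ |t * (p - H * s)| + |s * (q - H * t)| + |(s - t) * p| := by
          gcongr
          exact abs_sub _ _
      _ = t * |p - H * s| + s * |q - H * t| + |s - t| * p := by
          rw [abs_mul, abs_mul, abs_mul, abs_of_nonneg ht0, abs_of_pos hs, abs_of_nonneg hp0]
      _ ≤ (2 * s) * |p - H * s| + s * |q - H * t| + (η * s) * h := by gcongr
      _ = _ := by ring
  exact le_of_mul_le_mul_left h2 hs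

/-- **The error in the Hardy-Littlewood formula for the primes `n² + a` is on average at least as large as
for a random set.** Let `0 < δ ≤ 1/3` and `κ = δ / 2^26`. For all sufficiently large `N` and all `h ≥ 1`:

1. for all `k ≤ N^(δ/160)` and all disjoint windows `(x_l, x_l + h]`, `l < k`, in `[1, N^(1/3 - δ)]`, and all
   real `c_l`, the sum over `N < a ≤ 2N` of the squares `(∑_l c_l P_a(x_l; h))²` is at least
   `κ (h N / log N) ∑_l c_l²`;
2. for all disjoint windows `(x, x + h]` and `(y, y + h]` in `[1, N^(1/3 - δ)]` and all functions `H` of `a`,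
   in particular the constants of Hardy and Littlewood, the sum over `N < a ≤ 2N` of the squares of the errors
   `P_a(x; h) - H(a) S_a(x; h)` and `P_a(y; h) - H(a) S_a(y; h)` is at least `κ h N / log N`;
3. and at least `κ N / (h log N)` of the `a` are such that one of the two errors has absolute value at
   least `κ √(h / log N)`. -/
theorem result (δ : ℝ) (hδ : 0 < δ) (hδ3 : δ ≤ 1 / 3) : ∃ N₀ : ℕ, ∀ N : ℕ, N₀ ≤ N → ∀ h : ℕ, 1 ≤ h →
    (∀ (k : ℕ) (x : Fin k → ℕ) (c : Fin k → ℝ), (k : ℝ) ≤ (N : ℝ) ^ (δ / 160) →
      (∀ l, (x l : ℝ) + h ≤ (N : ℝ) ^ (1 / 3 - δ)) →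
      (∀ l m, l ≠ m → x l + h ≤ x m ∨ x m + h ≤ x l) →
      δ / 2 ^ 26 * (h * N / Real.log N) * ∑ l, c l ^ 2 ≤
        ∑ a ∈ Ioc N (2 * N), (∑ l, c l * primeCount (x l) h a) ^ 2) ∧
    ∀ x y : ℕ, x + h ≤ y → (y : ℝ) + h ≤ (N : ℝ) ^ (1 / 3 - δ) → ∀ H : ℕ → ℝ,
      δ / 2 ^ 26 * (h * N / Real.log N) ≤
        ∑ a ∈ Ioc N (2 * N), (error (H a) x h a ^ 2 + error (H a) y h a ^ 2) ∧
      δ / 2 ^ 26 * (N / (h * Real.log N)) ≤
        ((Ioc N (2 * N)).filter fun a => δ / 2 ^ 26 * Real.sqrt (h / Real.log N) ≤
          max |error (H a) x h a| |error (H a) y h a|).card := by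
  obtain ⟨x0, hx0⟩ := Pool.Agent.H52.SQ.win_var δ hδ hδ3
  set κ1 : ℝ := δ / 2 ^ 22 with hκ1
  have hκ10 : 0 < κ1 := by positivity
  have hκ11 : κ1 ≤ 1 := by
    rw [hκ1, div_le_one (by positivity)]
    linarith
  -- large `N`
  obtain ⟨x1, hx1⟩ : ∃ x1 : ℕ, ∀ N : ℕ, x1 ≤ N → 2 ≤ (N : ℝ) ^ (δ / 160) ∧
      Real.log N ≤ κ1 / 24 * (N : ℝ) ^ (6 * δ) := by
    have h1 : ∀ᶠ x : ℝ in Filter.atTop, 2 ≤ x ^ (δ / 160) :=
      (tendsto_rpow_atTop (by positivity)).eventually_ge_atTop 2
    have h2 : ∀ᶠ x : ℝ in Filter.atTop, ‖Real.log x‖ ≤ (κ1 / 24) * ‖x ^ (6 * δ)‖ :=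
      (isLittleO_log_rpow_atTop (by positivity : (0 : ℝ) < 6 * δ)).bound (by positivity)
    obtain ⟨x1, hx1⟩ := (h1.and h2).exists_forall_of_atTop
    refine ⟨⌈x1⌉₊ + 1, fun N hN => ?_⟩
    have hNx : x1 ≤ N := by
      have h3 := Nat.le_ceil x1
      have h4 : ((⌈x1⌉₊ : ℕ) : ℝ) ≤ N := by exact_mod_cast (by omega : ⌈x1⌉₊ ≤ N)
      linarith
    obtain ⟨e1, e2⟩ := hx1 N hNx
    refine ⟨e1, ?_⟩
    rw [Real.norm_eq_abs, Real.norm_eq_abs, abs_of_nonneg (a := (N : ℝ) ^ (6 * δ)) (by positivity)] at e2
    exact (le_abs_self _).trans e2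
  refine ⟨x0 + x1 + 3, fun N hN h hh => ⟨?_, ?_⟩⟩
  · -- part 1
    intro k x c hk hx hd
    have h1 := hx0 N (by omega) h k x c hh hk hx hd
    simp only [cw_eq] at h1
    refine le_trans ?_ h1
    have hN3 : (3 : ℝ) ≤ N := by exact_mod_cast (by omega : 3 ≤ N)
    have hlog : 0 ≤ Real.log N := Real.log_nonneg (by linarith)
    apply mul_le_mul_of_nonneg_right _ (sum_nonneg fun l _ => by positivity)
    apply mul_le_mul_of_nonneg_right _ (by positivity)
    apply div_le_div_of_nonneg_left hδ.le (by norm_num) (by norm_num)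
  · intro x y hxy hyN H
    obtain ⟨hN2, hNlog⟩ := hx1 N (by omega)
    have hN3 : (3 : ℝ) ≤ N := by exact_mod_cast (by omega : 3 ≤ N)
    have hN0 : (0 : ℝ) < N := by linarith
    have hhR : (1 : ℝ) ≤ h := by exact_mod_cast hh
    have hlog : 1 ≤ Real.log N := by
      have h1 : Real.exp 1 ≤ N := by
        have := Real.exp_one_lt_d9
        linarith
      have h2 := Real.log_le_log (Real.exp_pos 1) h1
      rwa [Real.log_exp] at h2
    have hlog0 : 0 < Real.log N := by linarith
    set X : ℝ := (N : ℝ) ^ (1 / 3 - δ) with hX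
    have hX0 : 0 ≤ X := by positivity
    have hyR : (y : ℝ) + h ≤ X := hyN
    have hxR : (x : ℝ) + h ≤ X := by
      have : ((x + h : ℕ) : ℝ) ≤ y := by exact_mod_cast hxy
      push_cast at this
      linarith
    have hhX : (h : ℝ) ≤ X := by
      have : (0 : ℝ) ≤ x := by positivity
      linarith
    -- the mean square of the difference
    have hD : 2 * (κ1 * (h * N / Real.log N)) ≤
        ∑ a ∈ Ioc N (2 * N), ((primeCount x h a : ℝ) - primeCount y h a) ^ 2 := by
      have h1 := hx0 N (by omega) h 2 ![x, y] ![1, -1] hh (by exact_mod_cast hN2)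
        (by
          intro l
          fin_cases l
          · exact hxR
          · exact hyR)
        (by
          intro l m hlm
          fin_cases l <;> fin_cases m
          · exact absurd rfl hlm
          · left
            exact hxy
          · right
            exact hxy
          · exact absurd rfl hlm)
      simp only [Fin.sum_univ_two, Matrix.cons_val_zero, Matrix.cons_val_one, cw_eq] at h1
      have h2 : κ1 * (h * N / Real.log N) * (1 ^ 2 + (-1) ^ 2) = 2 * (κ1 * (h * N / Real.log N)) := by ring
      rw [h2] at h1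
      refine h1.trans (le_of_eq ?_)
      apply sum_congr rfl
      intro a _
      ring
    -- the error from the variation of the logarithm
    set η : ℝ := X ^ 2 / N with hη
    have hη0 : 0 ≤ η := by positivity
    have hηh2 : (η * h) ^ 2 ≤ κ1 / (24 * Real.log N) := by
      have h1 : η * h ≤ (N : ℝ) ^ (-(3 * δ)) := by
        calc η * h ≤ X ^ 2 / N * X := by gcongr
          _ = X ^ 3 / N := by ring
          _ = (N : ℝ) ^ (-(3 * δ)) := by
              rw [hX, ← Real.rpow_natCast, ← Real.rpow_mul hN0.le, ← Real.rpow_sub_one hN0.ne']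
              congr 1
              push_cast
              ring
      have h2 : (η * h) ^ 2 ≤ (N : ℝ) ^ (-(6 * δ)) := by
        calc (η * h) ^ 2 ≤ ((N : ℝ) ^ (-(3 * δ))) ^ 2 := pow_le_pow_left₀ (by positivity) h1 2
          _ = (N : ℝ) ^ (-(6 * δ)) := by
              rw [← Real.rpow_natCast, ← Real.rpow_mul hN0.le]
              congr 1
              push_cast
              ring
      refine h2.trans ?_
      rw [Real.rpow_neg hN0.le, le_div_iff₀ (by positivity)]
      have h3 : 0 < (N : ℝ) ^ (6 * δ) := by positivity
      rw [inv_mul_le_iff₀ h3]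
      linarith
    have hcmp : ∀ a ∈ Ioc N (2 * N), |(primeCount x h a : ℝ) - primeCount y h a| ≤
        2 * |error (H a) x h a| + |error (H a) y h a| + η * h := by
      intro a ha
      rw [mem_Ioc] at ha
      have haN : (N : ℝ) < a := by exact_mod_cast ha.1
      have ha3 : 3 ≤ a := by omega
      have hLa : 1 ≤ Real.log a := hlog.trans (Real.log_le_log hN0 haN.le)
      have hLab : Real.log a ≤ Real.log (a + X ^ 2) := Real.log_le_log (by linarith) (by linarith [sq_nonneg X])
      have hLdiff : Real.log (a + X ^ 2) - Real.log a ≤ η := by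
        rw [← Real.log_div (by positivity) (by linarith : (a : ℝ) ≠ 0)]
        have h1 : ((a : ℝ) + X ^ 2) / a = 1 + X ^ 2 / a := by
          field_simp
        rw [h1]
        have h2 : Real.log (1 + X ^ 2 / a) ≤ X ^ 2 / a := by
          have := Real.log_le_sub_one_of_pos (by positivity : 0 < 1 + X ^ 2 / a)
          linarith
        refine h2.trans ?_
        rw [hη]
        gcongr
      obtain ⟨s1, s2⟩ := logSum_bounds x h a X _ _ rfl rfl ha3 hxR
      obtain ⟨t1, t2⟩ := logSum_bounds y h a X _ _ rfl rfl ha3 hyR
      set La := Real.log a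
      set Lb := Real.log (a + X ^ 2)
      have hLa0 : 0 < La := by linarith
      have hLb0 : 0 < Lb := by linarith
      have hη1 : η ≤ 1 := by
        have h1 : η ≤ η * h := le_mul_of_one_le_right hη0 hhR
        have h2 : (η * h) ^ 2 ≤ 1 := by
          refine hηh2.trans ?_
          rw [div_le_one (by positivity)]
          linarith
        have h3 : η * h ≤ 1 := by
          by_contra hcon
          rw [not_le] at hcon
          nlinarith
        linarith
      have hs0 : 0 < logSum x h a := lt_of_lt_of_le (by positivity) s1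
      have ht0 : 0 < logSum y h a := lt_of_lt_of_le (by positivity) t1
      apply compare _ _ _ _ _ η h hs0 ht0.le _ _ (by positivity) (primeCount_le x h a)
      · -- t ≤ 2 s
        refine t2.trans (le_trans ?_ (mul_le_mul_of_nonneg_left s1 (by norm_num)))
        rw [div_le_iff₀ hLa0]
        have h1 : Lb ≤ 2 * La := by linarith
        calc (h : ℝ) = h / Lb * Lb := by field_simp
          _ ≤ h / Lb * (2 * La) := by gcongr
          _ = _ := by ring
      · -- |s - t| ≤ η s
        have h1 : |logSum x h a - logSum y h a| ≤ h / La - h / Lb := by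
          rw [abs_le]
          constructor <;> linarith
        refine h1.trans (le_trans ?_ (mul_le_mul_of_nonneg_left s1 hη0))
        have h2 : (h : ℝ) / La - h / Lb = (h / Lb) * ((Lb - La) / La) := by
          field_simp
        rw [h2, mul_comm η]
        apply mul_le_mul_of_nonneg_left _ (by positivity)
        rw [div_le_iff₀ hLa0]
        calc Lb - La ≤ η * 1 := by linarith
          _ ≤ η * La := by gcongr
    have hcardN : (((Ioc N (2 * N)).card : ℕ) : ℝ) = N := by
      rw [Nat.card_Ioc]
      congr 1
      omega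
    constructor
    · -- part 2
      have h1 : ∀ a ∈ Ioc N (2 * N), ((primeCount x h a : ℝ) - primeCount y h a) ^ 2 ≤
          12 * (error (H a) x h a ^ 2 + error (H a) y h a ^ 2) + 3 * (κ1 / (24 * Real.log N)) := by
        intro a ha
        have e1 := hcmp a ha
        have e2 : ((primeCount x h a : ℝ) - primeCount y h a) ^ 2 ≤
            (2 * |error (H a) x h a| + |error (H a) y h a| + η * h) ^ 2 := by
          rw [← sq_abs ((primeCount x h a : ℝ) - primeCount y h a)]
          exact pow_le_pow_left₀ (abs_nonneg _) e1 2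
        have e3 : error (H a) x h a ^ 2 = |error (H a) x h a| ^ 2 := (sq_abs _).symm
        have e4 : error (H a) y h a ^ 2 = |error (H a) y h a| ^ 2 := (sq_abs _).symm
        rw [e3, e4]
        nlinarith [sq_nonneg (2 * |error (H a) x h a| - |error (H a) y h a|),
          sq_nonneg (2 * |error (H a) x h a| - η * h), sq_nonneg (|error (H a) y h a| - η * h),
          sq_nonneg |error (H a) y h a|]
      have h2 := hD.trans (sum_le_sum h1)
      rw [sum_add_distrib, ← mul_sum, sum_const, nsmul_eq_mul, hcardN] at h2
      set E := ∑ a ∈ Ioc N (2 * N), (error (H a) x h a ^ 2 + error (H a) y h a ^ 2) with hE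
      have h3 : (N : ℝ) * (3 * (κ1 / (24 * Real.log N))) ≤ κ1 * (h * N / Real.log N) := by
        have e1 : (N : ℝ) * (3 * (κ1 / (24 * Real.log N))) = (1 / 8) * (κ1 * (1 * N / Real.log N)) := by
          field_simp
          norm_num
        rw [e1]
        have e2 : κ1 * (1 * N / Real.log N) ≤ κ1 * (h * N / Real.log N) := by gcongr
        have e3 : 0 ≤ κ1 * (1 * N / Real.log N) := by positivity
        linarith
      have h4 : κ1 * (h * N / Real.log N) ≤ 12 * E := by linarith
      have h5 : 0 ≤ (h : ℝ) * N / Real.log N := by positivity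
      have h6 : δ / 2 ^ 26 * (h * N / Real.log N) ≤ κ1 / 12 * (h * N / Real.log N) := by
        apply mul_le_mul_of_nonneg_right _ h5
        rw [hκ1]
        linarith
      linarith
    · -- part 3
      set τ : ℝ := Real.sqrt (κ1 * (h / Real.log N)) with hτ
      have hτ2 : τ ^ 2 = κ1 * (h / Real.log N) := Real.sq_sqrt (by positivity)
      have hτ0 : 0 ≤ τ := Real.sqrt_nonneg _
      set G := (Ioc N (2 * N)).filter fun a => τ ≤ |(primeCount x h a : ℝ) - primeCount y h a| with hG
      have h1 : ∑ a ∈ Ioc N (2 * N), ((primeCount x h a : ℝ) - primeCount y h a) ^ 2 ≤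
          (G.card : ℝ) * (h : ℝ) ^ 2 + N * τ ^ 2 := by
        have e1 : ∀ a ∈ Ioc N (2 * N), ((primeCount x h a : ℝ) - primeCount y h a) ^ 2 ≤
            (if τ ≤ |(primeCount x h a : ℝ) - primeCount y h a| then (h : ℝ) ^ 2 else 0) + τ ^ 2 := by
          intro a _
          rw [← sq_abs ((primeCount x h a : ℝ) - primeCount y h a)]
          split_ifs with hc
          · have e2 : |(primeCount x h a : ℝ) - primeCount y h a| ≤ h := by
              rw [abs_le]
              have e3 := primeCount_le x h a
              have e4 := primeCount_le y h a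
              have e5 : (0 : ℝ) ≤ primeCount x h a := by positivity
              have e6 : (0 : ℝ) ≤ primeCount y h a := by positivity
              constructor <;> linarith
            have e3 := pow_le_pow_left₀ (abs_nonneg _) e2 2
            linarith [sq_nonneg τ]
          · rw [not_le] at hc
            have e3 := pow_le_pow_left₀ (abs_nonneg _) hc.le 2
            linarith
        refine (sum_le_sum e1).trans (le_of_eq ?_)
        rw [sum_add_distrib, sum_const, nsmul_eq_mul, hcardN, ← sum_filter, sum_const, nsmul_eq_mul]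
      have h2 : κ1 * (h * N / Real.log N) ≤ (G.card : ℝ) * (h : ℝ) ^ 2 := by
        have e1 : N * τ ^ 2 = κ1 * (h * N / Real.log N) := by
          rw [hτ2]
          ring
        linarith
      have hh0 : (0 : ℝ) < h := by linarith
      have h3 : κ1 * (N / (h * Real.log N)) ≤ G.card := by
        have e1 : (h : ℝ) ^ 2 * (κ1 * (N / (h * Real.log N))) ≤ (h : ℝ) ^ 2 * G.card := by
          have e2 : (h : ℝ) ^ 2 * (κ1 * (N / (h * Real.log N))) = κ1 * (h * N / Real.log N) := by
            field_simp
          rw [e2]
          linarith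
        exact le_of_mul_le_mul_left e1 (by positivity)
      have h4 : G ⊆ (Ioc N (2 * N)).filter fun a => δ / 2 ^ 26 * Real.sqrt (h / Real.log N) ≤
          max |error (H a) x h a| |error (H a) y h a| := by
        intro a ha
        rw [hG, mem_filter] at ha
        rw [mem_filter]
        refine ⟨ha.1, ?_⟩
        have e1 := hcmp a ha.1
        have e2 := le_max_left |error (H a) x h a| |error (H a) y h a|
        have e3 := le_max_right |error (H a) x h a| |error (H a) y h a|
        set m := max |error (H a) x h a| |error (H a) y h a|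
        have e4 : η * h ≤ τ / 2 := by
          have e5 : (η * h) ^ 2 ≤ (τ / 2) ^ 2 := by
            refine hηh2.trans ?_
            rw [div_pow, hτ2]
            have e6 : κ1 / (24 * Real.log N) = (1 / 6) * (κ1 * (1 / Real.log N) / 2 ^ 2) := by
              field_simp
              norm_num
            have e7 : κ1 * (1 / Real.log N) / 2 ^ 2 ≤ κ1 * (h / Real.log N) / 2 ^ 2 := by gcongr
            have e8 : 0 ≤ κ1 * (1 / Real.log N) / 2 ^ 2 := by positivity
            rw [e6]
            linarith
          exact (abs_le_of_sq_le_sq' e5 (by positivity)).2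
        have e5 : τ / 6 ≤ m := by linarith [ha.2]
        refine le_trans ?_ e5
        have e6 : τ = Real.sqrt κ1 * Real.sqrt (h / Real.log N) := by
          rw [hτ, Real.sqrt_mul hκ10.le]
        have e7 : κ1 ≤ Real.sqrt κ1 := by
          have e8 : κ1 * κ1 ≤ κ1 := by
            calc κ1 * κ1 ≤ κ1 * 1 := by gcongr
              _ = κ1 := mul_one _
          exact Real.le_sqrt_of_sq_le (by rw [sq]; exact e8)
        rw [e6]
        have e8 : 0 ≤ Real.sqrt (h / Real.log N) := Real.sqrt_nonneg _
        have e9 : δ / 2 ^ 26 ≤ Real.sqrt κ1 / 6 := by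
          have e10 : δ / 2 ^ 26 ≤ κ1 / 6 := by
            rw [hκ1]
            linarith
          linarith
        calc δ / 2 ^ 26 * Real.sqrt (h / Real.log N) ≤ Real.sqrt κ1 / 6 * Real.sqrt (h / Real.log N) :=
              mul_le_mul_of_nonneg_right e9 e8
          _ = _ := by ring
      have h5 : (G.card : ℝ) ≤ (((Ioc N (2 * N)).filter fun a => δ / 2 ^ 26 * Real.sqrt (h / Real.log N) ≤
          max |error (H a) x h a| |error (H a) y h a|).card : ℝ) := by exact_mod_cast card_le_card h4
      refine le_trans ?_ (h3.trans h5)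
      apply mul_le_mul_of_nonneg_right _ (by positivity)
      apply div_le_div_of_nonneg_left hδ.le (by norm_num) (by norm_num)

end Pool.Agent.Results.MP_391708_nt.Fluctuations
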