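import Pool.Agent.H43.X6.BC.G1

/-!
Clusters of primes `n² + a`: for almost all `a ≤ X`, the small `n` at which at least `m` of the numbers
`(n + h)² + a`, `h` in a given finite set, are prime occur in almost all windows of polylogarithmic
length, already below `X^(1/6 + ε)`.
-/

set_option autoImplicit false

namespace Pool.Agent.Results.MP_391708_nt.ShortClusters

open Finset

/-- The window `(M, M + (log X)^B]` holds an integer `n` such that at least `m` of the numbers
`(n + h)² + a`, `h ∈ S`, are prime. -/
def HasCluster (S : Finset ℕ) (m B X a M : ℕ) : Prop :=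
  ∃ n : ℕ, M < n ∧ (n : ℝ) ≤ M + Real.log X ^ B ∧
    m ≤ (S.filter (fun h => Nat.Prime ((n + h) ^ 2 + a))).card

open Classical in
/-- The number of `M` with `1 ≤ M ≤ N` whose window holds no such `n`. -/
noncomputable def badWindows (S : Finset ℕ) (m B X a N : ℕ) : ℕ :=
  ((Icc 1 N).filter (fun M => ¬ HasCluster S m B X a M)).card

open Classical in
/-- **Clusters of primes `n² + a` in short intervals.** For every `m` there are `k` and `B` such that for
every finite set `S` of natural numbers with at least `k` elements and all `ε, η > 0` there is `X₀` with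
the following property. Let `X ≥ X₀` and let `N` satisfy `X^(1/6 + ε) ≤ N ≤ X^(1/2)`. Then for all
`1 ≤ a ≤ X` but at most `η X`, all `1 ≤ M ≤ N` but at most `η N` are such that the window
`(M, M + (log X)^B]` holds an integer `n` for which at least `m` of the numbers `(n + h)² + a`, `h ∈ S`,
are prime. -/
theorem result (m : ℕ) : ∃ k B : ℕ, ∀ S : Finset ℕ, k ≤ S.card → ∀ ε η : ℝ, 0 < ε → 0 < η →
    ∃ X₀ : ℕ, ∀ X N : ℕ, X₀ ≤ X → (X : ℝ) ^ (1 / 6 + ε) ≤ N → N ^ 2 ≤ X →
    (((Icc 1 X).filter (fun a => η * N < (badWindows S m B X a N : ℝ))).card : ℝ) ≤ η * X :=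
  Pool.Agent.H43.X6.BC.main m

end Pool.Agent.Results.MP_391708_nt.ShortClusters
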