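import Pool.Agent.H43.X6.Chn6
import Pool.Agent.H43.SL.Fin
import Pool.Agent.H43.G.R_pool_sql_team_seeded_620a6dc7.helper24_UT_.Lsq

/-!
The asymptotic formula of Hardy and Littlewood for the number of `n ≤ y` with `|n² + a|` prime,
with its exact constant, for almost all `|a| ≤ X`, uniformly for all lengths `y` between
`X ^ (1 / 12 + ε)` and `X / (log X) ^ B`. The proof uses Huxley's theorem on primes in almost all
intervals of length `X ^ (1 / 6 + ε)`, for arithmetic progressions to moduli up to a power of `log X`.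
-/

set_option autoImplicit false

namespace Pool.Agent.Results.MP_391708_nt.ShortLengths

open Finset Filter

/-- `P_a(y)`: the number of `1 ≤ n ≤ y` with `|n² + a|` prime -/
noncomputable def primeCount (a : ℤ) (y : ℕ) : ℝ :=
  (((Icc 1 y).filter (fun n : ℕ => Nat.Prime (Int.natAbs ((n : ℤ) ^ 2 + a)))).card : ℝ)

/-- the sum of `1 / log |n² + a|` over the `1 ≤ n ≤ y` with `|n² + a| ≥ 2` -/
noncomputable def logSum (a : ℤ) (y : ℕ) : ℝ :=
  ∑ n ∈ (Icc 1 y).filter (fun n : ℕ => 2 ≤ |(n : ℤ) ^ 2 + a|),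
    1 / Real.log |(((n : ℤ) ^ 2 + a : ℤ) : ℝ)|

/-- `∏ (1 - (-a|w)/(w-1))` over the odd primes `w < N` -/
noncomputable def partialProd (a : ℤ) (N : ℕ) : ℝ :=
  ∏ w ∈ (range N).filter (fun w : ℕ => Nat.Prime w ∧ 2 < w),
    (1 - ((jacobiSym (-a) w : ℤ) : ℝ) / ((w : ℝ) - 1))

/-- **Primes `|n² + a|` with `n` small compared with `a`.** For all `U` and `ε > 0` there are `B, X₀`
such that for all `X ≥ X₀`, all integers `|a| ≤ X` but at most `X/(log X)^U` have the following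
property. If `a` is not of the form `-m²`, then the product `∏ (1 - (-a|w)/(w-1))` over the odd primes
converges to some `h > 0`, and
`P_a(y) = h ∑_{n ≤ y} 1/log|n² + a| · (1 + O*((log X)^(-U)))` for all `y` with
`X^(1/12 + ε) ≤ y ≤ X/(log X)^B`. -/
theorem result (U : ℕ) (ε : ℝ) (hε : 0 < ε) : ∃ B X0 : ℕ, ∀ X : ℕ, X0 ≤ X →
    ∃ Bad : Finset ℤ, (Bad.card : ℝ) ≤ X / Real.log X ^ U ∧
      ∀ a : ℤ, |a| ≤ X → a ∉ Bad → (∀ m : ℤ, a ≠ -m ^ 2) →
        ∃ h : ℝ, 0 < h ∧ Tendsto (fun N : ℕ => partialProd a N) atTop (nhds h) ∧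
          ∀ y : ℕ, (X : ℝ) ^ (1 / 12 + ε : ℝ) ≤ y → y * Real.log X ^ B ≤ X →
            |primeCount a y - h * logSum a y| ≤ h * logSum a y / Real.log X ^ U := by
  set η := min ε (1 / 2) with hη
  have hη0 : 0 < η := lt_min hε (by norm_num)
  have hη1 : η ≤ ε := min_le_left _ _
  have hη2 : η ≤ 1 / 2 := min_le_right _ _
  obtain ⟨B, hB⟩ := Pool.Agent.H43.SL.fin (θ := 1 / 6 + η) (by linarith) (by linarith)
    (Pool.Agent.H43.X6.c_SIg6 (by linarith)) Pool.Agent.helper24_UT.Lsq.main U (η / 2) (by linarith)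
  obtain ⟨X0, hX0⟩ := eventually_atTop.mp hB
  refine ⟨B, max X0 1, fun X hX => ?_⟩
  have hX1 : (1 : ℝ) ≤ X := by exact_mod_cast (le_max_right _ _).trans hX
  obtain ⟨Bad, hBad, hgood⟩ := hX0 X ((le_max_left _ _).trans hX)
  refine ⟨Bad, hBad, fun a ha haB hsq => ?_⟩
  obtain ⟨h, h1, h2, h3⟩ := hgood a (by rw [mem_Icc]; exact abs_le.1 ha) haB (by
    rintro ⟨m, hm⟩
    apply hsq m
    rw [sq, ← hm, neg_neg])
  refine ⟨h, h1, h2, fun y hy1 hy2 => h3 y (le_trans ?_ hy1) hy2⟩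
  exact Real.rpow_le_rpow_of_exponent_le hX1 (by linarith)

end Pool.Agent.Results.MP_391708_nt.ShortLengths
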