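import Pool.Agent.H43.X6.SWFin

/-!
The asymptotic formula of Hardy and Littlewood for the number of `n` with `|n² + a|` prime, with its
exact constant, for almost all `|a| ≤ X`, in almost all windows `M < n ≤ M + H` whose length `H` may be
as small as a power of `log X`.
-/

set_option autoImplicit false

namespace Pool.Agent.Results.MP_391708_nt.ShortWindows

open Finset Filter

/-- the number of `n` with `M < n ≤ M + H` and `|n² + a|` prime -/
noncomputable def windowCount (a : ℤ) (M H : ℕ) : ℝ :=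
  (((Ioc M (M + H)).filter (fun n : ℕ => Nat.Prime (Int.natAbs ((n : ℤ) ^ 2 + a)))).card : ℝ)

/-- the sum of `1 / log |n² + a|` over the `n` with `M < n ≤ M + H` and `|n² + a| ≥ 2` -/
noncomputable def windowSum (a : ℤ) (M H : ℕ) : ℝ :=
  ∑ n ∈ (Ioc M (M + H)).filter (fun n : ℕ => 2 ≤ |(n : ℤ) ^ 2 + a|),
    1 / Real.log |(((n : ℤ) ^ 2 + a : ℤ) : ℝ)|

/-- `∏ (1 - (-a|w)/(w-1))` over the odd primes `w < N` -/
noncomputable def partialProd (a : ℤ) (N : ℕ) : ℝ :=
  ∏ w ∈ (range N).filter (fun w : ℕ => Nat.Prime w ∧ 2 < w),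
    (1 - ((jacobiSym (-a) w : ℤ) : ℝ) / ((w : ℝ) - 1))

/-- **Primes `|n² + a|` in very short windows.** For all `U` and `ε > 0` there are `B, X₀` such that for
all `X ≥ X₀`, all integers `|a| ≤ X` but at most `X/(log X)^U` have the following property. If `a` is not
of the form `-m²`, then the product `∏ (1 - (-a|w)/(w-1))` over the odd primes converges to some `h > 0`,
and for all `N` with `X^(1/6 + ε) ≤ N ≤ X^(3/4 - ε)` and all `H` with `(log X)^B ≤ H ≤ N/(log X)^B`,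
all but at most `N/(log X)^U` of the integers `N ≤ M < 2N` satisfy
`#{M < n ≤ M + H : |n² + a| prime} = h ∑_{M < n ≤ M + H} 1/log|n² + a| · (1 + O*((log X)^(-U)))`. -/
theorem result (U : ℕ) (ε : ℝ) (hε : 0 < ε) : ∃ B X0 : ℕ, ∀ X : ℕ, X0 ≤ X →
    ∃ Bad : Finset ℤ, (Bad.card : ℝ) ≤ X / Real.log X ^ U ∧
      ∀ a : ℤ, |a| ≤ X → a ∉ Bad → (∀ m : ℤ, a ≠ -m ^ 2) →
        ∃ h : ℝ, 0 < h ∧ Tendsto (fun N : ℕ => partialProd a N) atTop (nhds h) ∧
          ∀ N : ℕ, (X : ℝ) ^ (1 / 6 + ε : ℝ) ≤ N → (N : ℝ) ≤ (X : ℝ) ^ (3 / 4 - ε : ℝ) →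
          ∀ H : ℕ, Real.log X ^ B ≤ H → (H : ℝ) * Real.log X ^ B ≤ N →
            (((Ico N (2 * N)).filter (fun M : ℕ => h * windowSum a M H / Real.log X ^ U <
              |windowCount a M H - h * windowSum a M H|)).card : ℝ) ≤ N / Real.log X ^ U := by
  set η := min ε 1 with hη
  have hη0 : 0 < η := lt_min hε (by norm_num)
  have hη1 : η ≤ ε := min_le_left _ _
  have hη2 : η ≤ 1 := min_le_right _ _
  obtain ⟨B, hB⟩ := Pool.Agent.H43.X6.SW.swf0 η hη0 hη2 U
  obtain ⟨X0, hX0⟩ := eventually_atTop.mp hB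
  refine ⟨B, max X0 1, fun X hX => ?_⟩
  have hX1 : (1 : ℝ) ≤ X := by exact_mod_cast (le_max_right _ _).trans hX
  obtain ⟨Bad, hBad, hgood⟩ := hX0 X ((le_max_left _ _).trans hX)
  refine ⟨Bad, hBad, fun a ha haB hsq => ?_⟩
  obtain ⟨h, h1, h2, h3⟩ := hgood a (by rw [mem_Icc]; exact abs_le.1 ha) haB (by
    rintro ⟨m, hm⟩
    apply hsq m
    rw [sq, ← hm, neg_neg])
  refine ⟨h, h1, h2, fun N hN1 hN2 H hH1 hH2 => ?_⟩
  have h4 := h3 N ((Real.rpow_le_rpow_of_exponent_le hX1 (by linarith)).trans hN1)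
    (hN2.trans (Real.rpow_le_rpow_of_exponent_le hX1 (by linarith))) H hH1 hH2
  refine le_trans (le_of_eq ?_) h4
  congr 2
  apply filter_congr
  intro M _
  rw [not_le]
  rfl

end Pool.Agent.Results.MP_391708_nt.ShortWindows
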